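import Pool.Agent.H895.AP.Rel
import Pool.Agent.Y15.UF.Res

/-!
# The `p`-basis `t` of `F_p(t)` and of `F_p((t))`
-/

set_option autoImplicit false
set_option linter.unusedSectionVars false

namespace Pool.Agent.H895.AP

open Finset

section rep

variable {E : Type} [Field E] (p : ℕ) [Fact p.Prime] [CharP E p] (t : E)

/-- `a` is a combination `∑ t^i c_i^p`, `i < p` -/
def Rep (a : E) : Prop := ∃ c : ℕ → E, a = ∑ i ∈ range p, t ^ i * c i ^ p

variable {p t}

lemma Rep.add {a b : E} (ha : Rep p t a) (hb : Rep p t b) : Rep p t (a + b) := by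
  obtain ⟨c, rfl⟩ := ha
  obtain ⟨c', rfl⟩ := hb
  refine ⟨fun i => c i + c' i, ?_⟩
  rw [← Finset.sum_add_distrib]
  refine Finset.sum_congr rfl fun i _ => ?_
  rw [add_pow_char]
  ring

lemma Rep.zero : Rep p t (0 : E) := by
  refine ⟨fun _ => 0, ?_⟩
  rw [Finset.sum_eq_zero]
  intro i _
  rw [zero_pow (Fact.out : p.Prime).ne_zero, mul_zero]

lemma Rep.pow_mul {b : E} (a : E) (hb : Rep p t b) : Rep p t (a ^ p * b) := by
  obtain ⟨c, rfl⟩ := hb
  refine ⟨fun i => a * c i, ?_⟩
  rw [Finset.mul_sum]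
  exact Finset.sum_congr rfl fun i _ => by ring

lemma Rep.t_mul {b : E} (hb : Rep p t b) : Rep p t (t * b) := by
  obtain ⟨c, rfl⟩ := hb
  obtain ⟨q, hq⟩ : ∃ q, p = q + 1 := ⟨p - 1, by have := (Fact.out : p.Prime).pos; omega⟩
  refine ⟨fun i => Nat.casesOn i (t * c q) fun j => c j, ?_⟩
  have h1 : ∀ (f : ℕ → E), ∑ i ∈ range p, f i = ∑ i ∈ range (q + 1), f i := fun f => by rw [hq]
  rw [h1, h1, Finset.sum_range_succ, Finset.sum_range_succ']
  simp only [pow_zero, one_mul]
  rw [mul_add, Finset.mul_sum]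
  congr 1
  · exact Finset.sum_congr rfl fun i _ => by ring
  · show t * (t ^ q * c q ^ p) = (t * c q) ^ p
    rw [mul_pow, ← mul_assoc, ← pow_succ', ← hq]

lemma Rep.one : Rep p t (1 : E) := by
  refine ⟨fun i => if i = 0 then 1 else 0, ?_⟩
  rw [Finset.sum_eq_single 0]
  · simp
  · intro i _ hi
    show t ^ i * (if i = 0 then (1 : E) else 0) ^ p = 0
    rw [if_neg hi, zero_pow (Fact.out : p.Prime).ne_zero, mul_zero]
  · intro h
    exact absurd (Finset.mem_range.2 (Fact.out : p.Prime).pos) h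

lemma Rep.sum {ι : Type} (S : Finset ι) (f : ι → E) (h : ∀ i ∈ S, Rep p t (f i)) : Rep p t (∑ i ∈ S, f i) := by
  classical
  induction S using Finset.induction_on with
  | empty => rw [Finset.sum_empty]; exact Rep.zero
  | insert a S ha ih =>
    rw [Finset.sum_insert ha]
    exact (h a (Finset.mem_insert_self _ _)).add (ih fun i hi => h i (Finset.mem_insert_of_mem hi))

lemma Rep.mul {a b : E} (ha : Rep p t a) (hb : Rep p t b) : Rep p t (a * b) := by
  obtain ⟨c, rfl⟩ := ha
  rw [Finset.sum_mul]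
  refine Rep.sum _ _ fun i _ => ?_
  have h1 : ∀ (i : ℕ) (d : E), Rep p t d → Rep p t (t ^ i * d) := by
    intro i
    induction i with
    | zero => intro d hd; rw [pow_zero, one_mul]; exact hd
    | succ i ih => intro d hd; rw [pow_succ', mul_assoc]; exact (ih d hd).t_mul
  rw [mul_assoc]
  exact h1 i _ (hb.pow_mul (c i))

lemma Rep.pow {a : E} (ha : Rep p t a) (n : ℕ) : Rep p t (a ^ n) := by
  induction n with
  | zero => rw [pow_zero]; exact Rep.one
  | succ n ih => rw [pow_succ]; exact ih.mul ha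

lemma Rep.inv {a : E} (ha : Rep p t a) : Rep p t a⁻¹ := by
  by_cases h0 : a = 0
  · rw [h0, inv_zero]; exact Rep.zero
  · have h1 : a⁻¹ = (a⁻¹) ^ p * a ^ (p - 1) := by
      obtain ⟨q, hq⟩ : ∃ q, p = q + 1 := ⟨p - 1, by have := (Fact.out : p.Prime).pos; omega⟩
      have h2 : p - 1 = q := by omega
      rw [h2]
      have h3 : (a⁻¹) ^ p = (a⁻¹) ^ (q + 1) := by rw [hq]
      rw [h3, pow_succ, mul_right_comm, ← mul_pow, inv_mul_cancel₀ h0, one_pow, one_mul]
    rw [h1]
    exact (ha.pow _).pow_mul _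

lemma Rep.fin {a : E} (ha : Rep p t a) : ∃ c : Fin p → E, a = ∑ i : Fin p, t ^ (i : ℕ) * c i ^ p := by
  obtain ⟨c, rfl⟩ := ha
  exact ⟨fun i => c i, Finset.sum_range _⟩

end rep

variable (p : ℕ) [Fact p.Prime]

lemma rep_poly (f : Polynomial (ZMod p)) :
    Rep p (RatFunc.X : RatFunc (ZMod p)) (algebraMap _ (RatFunc (ZMod p)) f) := by
  have hC : ∀ a : ZMod p, Rep p (RatFunc.X : RatFunc (ZMod p))
      (algebraMap _ (RatFunc (ZMod p)) (Polynomial.C a)) := by
    intro a
    have h1 : algebraMap _ (RatFunc (ZMod p)) (Polynomial.C a) =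
        (algebraMap _ (RatFunc (ZMod p)) (Polynomial.C a)) ^ p * 1 := by
      rw [mul_one, ← map_pow, ← Polynomial.C_pow, ZMod.pow_card]
    rw [h1]
    exact Rep.one.pow_mul _
  induction f using Polynomial.induction_on' with
  | add f g hf hg => rw [map_add]; exact hf.add hg
  | monomial n a =>
    rw [← Polynomial.C_mul_X_pow_eq_monomial, map_mul, map_pow, RatFunc.algebraMap_X]
    refine (hC a).mul (Rep.pow ?_ n)
    have h2 := (Rep.one (p := p) (t := (RatFunc.X : RatFunc (ZMod p)))).t_mul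
    rwa [mul_one] at h2

instance : CharP (RatFunc (ZMod p)) p :=
  charP_of_injective_algebraMap (algebraMap (ZMod p) (RatFunc (ZMod p))).injective p

lemma rep_ratFunc (a : RatFunc (ZMod p)) : Rep p (RatFunc.X : RatFunc (ZMod p)) a := by
  rw [← RatFunc.num_div_denom a, div_eq_mul_inv]
  exact (rep_poly p _).mul (rep_poly p _).inv

open Pool.Agent.Y15.UF in
lemma coeff_term (i : ℕ) (c : LaurentSeries (ZMod p)) (n : ℤ) :
    ((HahnSeries.single (1 : ℤ) (1 : ZMod p)) ^ i * c ^ p).coeff n =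
      if (p : ℤ) ∣ n - i then c.coeff ((n - i) / p) else 0 := by
  rw [HahnSeries.single_pow, one_pow, HahnSeries.coeff_single_mul, one_mul, coeff_pow]
  simp

lemma dvd_iff {n : ℤ} (i : Fin p) : (p : ℤ) ∣ n - (i : ℕ) ↔ ((i : ℕ) : ℤ) = n % p := by
  have hp1 : (0 : ℤ) < p := by exact_mod_cast (Fact.out : p.Prime).pos
  have h0 := Int.emod_nonneg n hp1.ne'
  have h1 := Int.emod_lt_of_pos n hp1
  have h2 : ((i : ℕ) : ℤ) < p := by exact_mod_cast i.2
  constructor
  · rintro ⟨k, hk⟩
    have h3 : n = ((i : ℕ) : ℤ) + p * k := by omega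
    rw [h3, Int.add_mul_emod_self_left, Int.emod_eq_of_lt (by positivity) h2]
  · intro h
    rw [h]
    exact Int.dvd_self_sub_emod

open scoped RatFunc in
theorem pbasis : PBasis p (RatFunc (ZMod p)) (LaurentSeries (ZMod p)) RatFunc.X := by
  classical
  have hp1 : (0 : ℤ) < p := by exact_mod_cast (Fact.out : p.Prime).pos
  have ht : algebraMap (RatFunc (ZMod p)) (LaurentSeries (ZMod p)) RatFunc.X =
      HahnSeries.single (1 : ℤ) (1 : ZMod p) := RatFunc.coe_X
  refine ⟨fun a => (rep_ratFunc p a).fin, fun y => ?_, fun c hc => ?_⟩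
  · obtain ⟨B, hB⟩ := Pool.Agent.Y15.UF.exists_bd y
    have hex : ∀ i : Fin p, ∃ w : LaurentSeries (ZMod p), ∀ m, w.coeff m = y.coeff (p * m + (i : ℕ)) := by
      intro i
      refine ⟨HahnSeries.ofSuppBddBelow (fun m => y.coeff (p * m + (i : ℕ))) ⟨-(B : ℤ) - 1, ?_⟩,
        fun m => rfl⟩
      intro m hm
      by_contra h1
      apply hm
      refine hB _ ?_
      push Not at h1
      have h2 : (p : ℤ) * (m + 1) ≤ 1 * (m + 1) := mul_le_mul_of_nonpos_right (by omega) (by omega)
      have h3 : ((i : ℕ) : ℤ) < p := by exact_mod_cast i.2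
      have h4 : (p : ℤ) * (m + 1) = p * m + p := by ring
      omega
    choose c hc using hex
    refine ⟨c, ?_⟩
    rw [ht]
    ext n
    rw [HahnSeries.coeff_sum]
    have hlt : (n % p).toNat < p := by
      have := Int.emod_lt_of_pos n hp1
      have := Int.emod_nonneg n hp1.ne'
      omega
    rw [Finset.sum_eq_single ⟨(n % p).toNat, hlt⟩]
    · rw [coeff_term, if_pos]
      · rw [hc]
        congr 1
        have h0 := Int.emod_nonneg n hp1.ne'
        have h1 : (((n % p).toNat : ℕ) : ℤ) = n % p := Int.toNat_of_nonneg h0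
        simp only [h1]
        rw [Int.mul_ediv_cancel' Int.dvd_self_sub_emod]
        ring
      · rw [dvd_iff]
        exact Int.toNat_of_nonneg (Int.emod_nonneg n hp1.ne')
    · intro i _ hi
      rw [coeff_term, if_neg]
      rw [dvd_iff]
      intro h
      apply hi
      apply Fin.ext
      simp only
      omega
    · intro h
      exact absurd (Finset.mem_univ _) h
  · funext i
    ext m
    have h1 := congrArg (fun y : LaurentSeries (ZMod p) => y.coeff (p * m + (i : ℕ))) hc
    simp only [ht] at h1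
    rw [HahnSeries.coeff_sum, Finset.sum_eq_single i, coeff_term, if_pos] at h1
    · rw [add_sub_cancel_right, Int.mul_ediv_cancel_left _ hp1.ne'] at h1
      exact h1
    · rw [add_sub_cancel_right]
      exact dvd_mul_right _ _
    · intro j _ hj
      rw [coeff_term, if_neg]
      rw [dvd_iff]
      intro h
      apply hj
      apply Fin.ext
      have h2 : ((i : ℕ) : ℤ) < p := by exact_mod_cast i.2
      rw [Int.mul_add_emod_self_left, Int.emod_eq_of_lt (by positivity) h2] at h
      exact_mod_cast h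
    · intro h
      exact absurd (Finset.mem_univ _) h

end Pool.Agent.H895.AP
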