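import Pool.Agent.H895.AP.Place

/-!
# The coarsening `V[1/t]` and its residue map to `F_p((t))`
-/

set_option autoImplicit false

namespace Pool.Agent.H895.AP

open scoped RatFunc

variable {L : Type} [Field L]

/-- `V[1/t]` -/
def coarse (V : ValuationSubring L) (t : L) (htV : t ∈ V) : ValuationSubring L where
  carrier := {x | ∃ N : ℕ, t ^ N * x ∈ V}
  mul_mem' := by
    rintro x y ⟨N, hN⟩ ⟨M, hM⟩
    refine ⟨N + M, ?_⟩
    have h1 : t ^ (N + M) * (x * y) = (t ^ N * x) * (t ^ M * y) := by ring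
    rw [h1]
    exact V.mul_mem _ _ hN hM
  one_mem' := ⟨0, by rw [pow_zero, one_mul]; exact V.one_mem⟩
  add_mem' := by
    rintro x y ⟨N, hN⟩ ⟨M, hM⟩
    refine ⟨N + M, ?_⟩
    have h1 : t ^ (N + M) * (x + y) = t ^ M * (t ^ N * x) + t ^ N * (t ^ M * y) := by ring
    rw [h1]
    exact V.add_mem _ _ (V.mul_mem _ _ (V.toSubring.pow_mem htV _) hN)
      (V.mul_mem _ _ (V.toSubring.pow_mem htV _) hM)
  zero_mem' := ⟨0, by rw [mul_zero]; exact V.zero_mem⟩
  neg_mem' := by
    rintro x ⟨N, hN⟩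
    exact ⟨N, by rw [mul_neg]; exact V.neg_mem _ hN⟩
  mem_or_inv_mem' := by
    intro x
    rcases V.mem_or_inv_mem x with h | h
    · exact Or.inl ⟨0, by rw [pow_zero, one_mul]; exact h⟩
    · exact Or.inr ⟨0, by rw [pow_zero, one_mul]; exact h⟩

lemma mem_coarse {V : ValuationSubring L} {t : L} {htV : t ∈ V} {x : L} :
    x ∈ coarse V t htV ↔ ∃ N : ℕ, t ^ N * x ∈ V := Iff.rfl

lemma le_coarse {V : ValuationSubring L} {t : L} (htV : t ∈ V) {x : L} (hx : x ∈ V) : x ∈ coarse V t htV :=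
  ⟨0, by rw [pow_zero, one_mul]; exact hx⟩

/-- elements outside of the coarsening have inverses divisible by all powers of `t` -/
lemma div_mem {V : ValuationSubring L} {t : L} (htV : t ∈ V) {x : L} (hx : x⁻¹ ∉ coarse V t htV)
    (N : ℕ) : x / t ^ N ∈ V := by
  have h1 : t ^ N * x⁻¹ ∉ V := fun h => hx ⟨N, h⟩
  rcases V.mem_or_inv_mem (t ^ N * x⁻¹) with h | h
  · exact absurd h h1
  · rw [mul_inv, inv_inv, mul_comm] at h
    rw [div_eq_mul_inv]
    exact h

section main

variable (p : ℕ) [Fact p.Prime] [CharP L p] (V : ValuationSubring L)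
  (hres : ∀ x ∈ V, ∃ a : ℤ, V.valuation (x - a) < 1)
  {t : L} (ht0 : t ≠ 0) (ht : V.valuation t < 1)
  (hmin : ∀ x, V.valuation x < 1 → V.valuation x ≤ V.valuation t)

/-- the expansion in `F_p((t))` -/
noncomputable def Phi : V →+* LaurentSeries (ZMod p) :=
  (HahnSeries.ofPowerSeries ℤ (ZMod p)).comp (Psi p V hres ht0 ht hmin)

lemma Phi_t : Phi p V hres ht0 ht hmin ⟨t, t_mem V ht⟩ = HahnSeries.single (1 : ℤ) (1 : ZMod p) := by
  show HahnSeries.ofPowerSeries ℤ (ZMod p) (Psi p V hres ht0 ht hmin ⟨t, t_mem V ht⟩) = _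
  rw [Psi_t, HahnSeries.ofPowerSeries_X]

/-- elements divisible by all powers of `t` have expansion zero -/
lemma Psi_div (x : V) (h : ∀ N : ℕ, (x : L) / t ^ N ∈ V) : Psi p V hres ht0 ht hmin x = 0 := by
  ext n
  have h1 : x = (⟨t, t_mem V ht⟩ : V) ^ (n + 1) * ⟨_, h (n + 1)⟩ := by
    apply Subtype.ext
    show (x : L) = t ^ (n + 1) * ((x : L) / t ^ (n + 1))
    rw [mul_div_cancel₀ _ (pow_ne_zero _ ht0)]
  rw [h1, map_mul, map_pow, Psi_t, PowerSeries.coeff_X_pow_mul', if_neg (by omega)]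
  simp

/-- divisibility by powers of `t` can be seen in the expansion -/
lemma Psi_dvd (N : ℕ) : ∀ x : V, PowerSeries.X ^ N ∣ Psi p V hres ht0 ht hmin x ↔
    (⟨t, t_mem V ht⟩ : V) ^ N ∣ x := by
  induction N with
  | zero => intro x; simp
  | succ N ih =>
    intro x
    constructor
    · intro h
      have h0 : rr p V hres x = 0 := by
        have h1 := (PowerSeries.X_pow_dvd_iff.1 h) 0 (Nat.succ_pos N)
        have h2 : PowerSeries.coeff 0 (Psi p V hres ht0 ht hmin x) = rr p V hres x :=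
          psi_coeff_zero p V hres ht0 hmin x
        rw [← h2, h1]
      have h1 := ss_eq p V hres ht0 ht hmin x
      rw [h0, map_zero, zero_add] at h1
      have h2 : Psi p V hres ht0 ht hmin x = PowerSeries.X *
          Psi p V hres ht0 ht hmin (ss p V hres ht0 hmin x) := by
        conv_lhs => rw [h1]
        rw [map_mul, Psi_t]
      rw [h2, pow_succ', mul_dvd_mul_iff_left PowerSeries.X_ne_zero, ih] at h
      rw [h1, pow_succ']
      exact mul_dvd_mul_left _ h
    · rintro ⟨y, rfl⟩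
      rw [map_mul, map_pow, Psi_t]
      exact dvd_mul_right _ _

lemma Phi_div (x : V) (h : ∀ N : ℕ, (x : L) / t ^ N ∈ V) : Phi p V hres ht0 ht hmin x = 0 := by
  show HahnSeries.ofPowerSeries ℤ (ZMod p) (Psi p V hres ht0 ht hmin x) = 0
  rw [Psi_div p V hres ht0 ht hmin x h, map_zero]

/-- the residue map of the coarsening -/
theorem exists_rho : ∃ ρ : coarse V t (t_mem V ht) →+* LaurentSeries (ZMod p),
    (∀ x : V, ρ ⟨x, le_coarse _ x.2⟩ = Phi p V hres ht0 ht hmin x) ∧
    ∀ x : coarse V t (t_mem V ht), (coarse V t (t_mem V ht)).valuation (x : L) < 1 → ρ x = 0 := by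
  classical
  set O := coarse V t (t_mem V ht) with hO
  let inc : V →+* O :=
    { toFun := fun x => ⟨x, le_coarse _ x.2⟩
      map_one' := rfl
      map_mul' := fun _ _ => rfl
      map_zero' := rfl
      map_add' := fun _ _ => rfl }
  let _ : Algebra V O := inc.toAlgebra
  have hinc : ∀ x : V, ((algebraMap V O x : O) : L) = x := fun _ => rfl
  let t' : V := ⟨t, t_mem V ht⟩
  have htinv : t⁻¹ ∈ O := ⟨1, by rw [pow_one, mul_inv_cancel₀ ht0]; exact V.one_mem⟩
  have hunit : IsUnit (algebraMap V O t') := by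
    refine IsUnit.of_mul_eq_one ⟨t⁻¹, htinv⟩ ?_
    apply Subtype.ext
    show t * t⁻¹ = 1
    exact mul_inv_cancel₀ ht0
  have hloc : IsLocalization.Away t' O := by
    refine ⟨?_, ?_, ?_⟩
    · rintro ⟨y, N, rfl⟩
      simp only [map_pow]
      exact hunit.pow N
    · intro x
      obtain ⟨N, hN⟩ := mem_coarse.1 x.2
      refine ⟨(⟨_, hN⟩, ⟨t' ^ N, N, rfl⟩), ?_⟩
      apply Subtype.ext
      simp only [map_pow]
      show (x : L) * t ^ N = t ^ N * x
      ring
    · intro x y h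
      refine ⟨1, ?_⟩
      have h1 : (x : L) = y := congrArg (fun z : O => (z : L)) h
      rw [Subtype.ext h1]
  have hu2 : IsUnit (Phi p V hres ht0 ht hmin t') := by
    rw [Phi_t]
    refine IsUnit.mk0 _ ?_
    intro h
    have := congrArg (fun y : LaurentSeries (ZMod p) => y.coeff 1) h
    simp at this
  let ρ : O →+* LaurentSeries (ZMod p) := IsLocalization.Away.lift t' hu2
  have hρ : ∀ x : V, ρ (algebraMap V O x) = Phi p V hres ht0 ht hmin x := fun x =>
    IsLocalization.Away.lift_eq t' hu2 x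
  refine ⟨ρ, fun x => hρ x, fun x hx => ?_⟩
  by_cases hx0 : x = 0
  · rw [hx0, map_zero]
  have hx0' : (x : L) ≠ 0 := fun h => hx0 (Subtype.ext h)
  have hninv : (x : L)⁻¹ ∉ O := by
    intro h
    have h1 : O.valuation (x : L)⁻¹ ≤ 1 := (O.valuation_le_one_iff _).2 h
    have h2 : O.valuation (x : L) * O.valuation (x : L)⁻¹ = 1 := by
      rw [← map_mul, mul_inv_cancel₀ hx0', map_one]
    have h3 : O.valuation (x : L) * O.valuation (x : L)⁻¹ < 1 :=
      lt_of_le_of_lt (mul_le_of_le_one_right zero_le h1) hx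
    exact absurd h2 h3.ne
  have hd := div_mem (t_mem V ht) hninv
  have hxV : (x : L) ∈ V := by
    have := hd 0
    rwa [pow_zero, div_one] at this
  have h4 : x = algebraMap V O ⟨x, hxV⟩ := rfl
  rw [h4, hρ]
  exact Phi_div p V hres ht0 ht hmin ⟨x, hxV⟩ hd

end main

section ratfunc

variable (p : ℕ) [Fact p.Prime] [Algebra (RatFunc (ZMod p)) L]

lemma charL : CharP L p :=
  charP_of_injective_algebraMap (algebraMap (RatFunc (ZMod p)) L).injective p

/-- the place over `F_p(t)` -/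
theorem exists_place (V : ValuationSubring L) (hres : ∀ x ∈ V, ∃ a : ℤ, V.valuation (x - a) < 1)
    (ht : V.valuation (algebraMap (RatFunc (ZMod p)) L RatFunc.X) < 1)
    (hmin : ∀ x, V.valuation x < 1 →
      V.valuation x ≤ V.valuation (algebraMap (RatFunc (ZMod p)) L RatFunc.X)) :
    ∃ (O : ValuationSubring L) (hE : ∀ a : RatFunc (ZMod p), algebraMap (RatFunc (ZMod p)) L a ∈ O)
      (ρ : O →+* LaurentSeries (ZMod p)),
      (∀ x, x ∈ O ↔ ∃ N : ℕ, algebraMap (RatFunc (ZMod p)) L RatFunc.X ^ N * x ∈ V) ∧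
      (∀ a, ρ ⟨algebraMap (RatFunc (ZMod p)) L a, hE a⟩ =
        algebraMap (RatFunc (ZMod p)) (LaurentSeries (ZMod p)) a) ∧
      (∀ x : O, O.valuation (x : L) < 1 → ρ x = 0) ∧
      ∃ (hVO : ∀ x ∈ V, x ∈ O) (Ψ : V → PowerSeries (ZMod p)),
        (∀ x : V, ρ ⟨x, hVO x x.2⟩ = HahnSeries.ofPowerSeries ℤ (ZMod p) (Ψ x)) ∧
        ∀ (x : V) (N : ℕ), PowerSeries.X ^ N ∣ Ψ x ↔
          ∃ y ∈ V, (x : L) = algebraMap (RatFunc (ZMod p)) L RatFunc.X ^ N * y := by
  classical
  have : CharP L p := charL p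
  set t : L := algebraMap (RatFunc (ZMod p)) L RatFunc.X with htdef
  have ht0 : t ≠ 0 := by
    rw [htdef]
    exact (map_ne_zero _).2 RatFunc.X_ne_zero
  set O := coarse V t (t_mem V ht) with hO
  obtain ⟨ρ, hρ1, hρ2⟩ : ∃ ρ : O →+* LaurentSeries (ZMod p),
      (∀ x : V, ρ ⟨x, le_coarse _ x.2⟩ = Phi p V hres ht0 ht hmin x) ∧
      ∀ x : O, O.valuation (x : L) < 1 → ρ x = 0 := exists_rho p V hres ht0 ht hmin
  -- polynomials
  let κ : Polynomial (ZMod p) →+* V := Polynomial.eval₂RingHom (cc p V) ⟨t, t_mem V ht⟩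
  have hκ : ∀ f, ((κ f : V) : L) = algebraMap (RatFunc (ZMod p)) L (algebraMap _ _ f) := by
    intro f
    have h1 : V.subtype.comp κ = (algebraMap (RatFunc (ZMod p)) L).comp
        (algebraMap (Polynomial (ZMod p)) (RatFunc (ZMod p))) := by
      refine Polynomial.ringHom_ext' (Subsingleton.elim _ _) ?_
      show ((κ Polynomial.X : V) : L) = algebraMap (RatFunc (ZMod p)) L (algebraMap _ _ Polynomial.X)
      rw [RatFunc.algebraMap_X]
      show ((Polynomial.eval₂ (cc p V) ⟨t, t_mem V ht⟩ Polynomial.X : V) : L) = t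
      rw [Polynomial.eval₂_X]
    exact congrFun (congrArg DFunLike.coe h1) f
  have hκΨ : ∀ f, Psi p V hres ht0 ht hmin (κ f) = (f : PowerSeries (ZMod p)) := by
    intro f
    have h1 : (Psi p V hres ht0 ht hmin).comp κ =
        (Polynomial.coeToPowerSeries.ringHom : Polynomial (ZMod p) →+* PowerSeries (ZMod p)) := by
      refine Polynomial.ringHom_ext' (Subsingleton.elim _ _) ?_
      show Psi p V hres ht0 ht hmin (Polynomial.eval₂ (cc p V) ⟨t, t_mem V ht⟩ Polynomial.X) = _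
      rw [Polynomial.eval₂_X, Psi_t]
      simp
    exact congrFun (congrArg DFunLike.coe h1) f
  have hE : ∀ a : RatFunc (ZMod p), algebraMap (RatFunc (ZMod p)) L a ∈ O := by
    intro a
    by_contra ha
    have ha0 : a ≠ 0 := by
      rintro rfl
      rw [map_zero] at ha
      exact ha O.zero_mem
    have hb : (algebraMap (RatFunc (ZMod p)) L a⁻¹)⁻¹ ∉ O := by rw [← map_inv₀, inv_inv]; exact ha
    have hd := div_mem (t_mem V ht) hb
    have hxV : algebraMap (RatFunc (ZMod p)) L a⁻¹ ∈ V := by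
      have := hd 0
      rwa [pow_zero, div_one] at this
    have h1 := Psi_div p V hres ht0 ht hmin ⟨_, hxV⟩ hd
    have h2 : κ (RatFunc.denom a⁻¹) * ⟨_, hxV⟩ = κ (RatFunc.num a⁻¹) := by
      apply Subtype.ext
      show ((κ (RatFunc.denom a⁻¹) : V) : L) * algebraMap (RatFunc (ZMod p)) L a⁻¹ = (κ (RatFunc.num a⁻¹) : V)
      rw [hκ, hκ, ← map_mul]
      congr 1
      conv_lhs => rw [← RatFunc.num_div_denom a⁻¹]
      have h3 : algebraMap (Polynomial (ZMod p)) (RatFunc (ZMod p)) (RatFunc.denom a⁻¹) ≠ 0 :=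
        RatFunc.algebraMap_ne_zero (RatFunc.denom_ne_zero _)
      simp only [RatFunc.num_div_denom]
      conv_lhs => rw [← RatFunc.num_div_denom a⁻¹]
      rw [RatFunc.num_div_denom a⁻¹]
      have h4 := RatFunc.num_div_denom a⁻¹
      rw [div_eq_iff h3] at h4
      rw [mul_comm]
      exact h4.symm
    have h3 := congrArg (Psi p V hres ht0 ht hmin) h2
    rw [map_mul, h1, mul_zero, hκΨ] at h3
    have h4 : RatFunc.num a⁻¹ = 0 := by
      have h5 : ((RatFunc.num a⁻¹ : Polynomial (ZMod p)) : PowerSeries (ZMod p)) = ((0 : Polynomial (ZMod p)) :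
        PowerSeries (ZMod p)) := by rw [← h3]; simp
      exact Polynomial.coe_injective _ h5
    rw [RatFunc.num_eq_zero_iff] at h4
    exact inv_ne_zero ha0 h4
  refine ⟨O, hE, ρ, fun x => mem_coarse, ?_, hρ2, fun x hx => le_coarse _ hx, fun x => Psi p V hres ht0 ht hmin x,
    fun x => hρ1 x, fun x N => ?_⟩
  swap
  · rw [Psi_dvd p V hres ht0 ht hmin N x]
    constructor
    · rintro ⟨y, rfl⟩
      exact ⟨y, y.2, rfl⟩
    · rintro ⟨y, hy, h⟩
      exact ⟨⟨y, hy⟩, Subtype.ext h⟩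
  -- comparison on `F_p(t)`
  let φ : RatFunc (ZMod p) →+* O :=
    { toFun := fun a => ⟨algebraMap (RatFunc (ZMod p)) L a, hE a⟩
      map_one' := Subtype.ext (map_one _)
      map_mul' := fun _ _ => Subtype.ext (map_mul _ _ _)
      map_zero' := Subtype.ext (map_zero _)
      map_add' := fun _ _ => Subtype.ext (map_add _ _ _) }
  have h1 : ρ.comp φ = algebraMap (RatFunc (ZMod p)) (LaurentSeries (ZMod p)) := by
    refine IsLocalization.ringHom_ext (nonZeroDivisors (Polynomial (ZMod p))) ?_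
    refine Polynomial.ringHom_ext' (Subsingleton.elim _ _) ?_
    show ρ (φ (algebraMap _ _ Polynomial.X)) = algebraMap (RatFunc (ZMod p)) (LaurentSeries (ZMod p))
      (algebraMap _ _ Polynomial.X)
    rw [RatFunc.algebraMap_X]
    have h2 : ρ (φ RatFunc.X) = Phi p V hres ht0 ht hmin ⟨t, t_mem V ht⟩ := hρ1 ⟨t, t_mem V ht⟩
    rw [h2, Phi_t]
    exact RatFunc.coe_X.symm
  intro a
  exact congrFun (congrArg DFunLike.coe h1) a

end ratfunc

end Pool.Agent.H895.AP
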