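import Mathlib

/-!
# Additive polynomials over `E` evaluated in an extension field `M`
-/

set_option autoImplicit false

namespace Pool.Agent.H895.AP

open Polynomial

variable {E M : Type} [Field E] [Field M] [Algebra E M]

/-- The value at `f` of the additive polynomial with coefficient sequence `s`,
that is `∑ s_k f^(p^k)`. -/
noncomputable def ev (p : ℕ) (s : E[X]) (f : M) : M :=
  s.sum fun k a => algebraMap E M a * f ^ p ^ k

/-- Composition with `b F^e`. -/
noncomputable def cmp (p : ℕ) (S : E[X]) (e : ℕ) (b : E) : E[X] :=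
  S.sum fun k a => monomial (k + e) (a * b ^ p ^ k)

lemma ev_zero (p : ℕ) (f : M) : ev p (0 : E[X]) f = 0 := by simp [ev]

lemma ev_add (p : ℕ) (s t : E[X]) (f : M) : ev p (s + t) f = ev p s f + ev p t f := by
  unfold ev
  rw [Polynomial.sum_add_index]
  · intro i; simp
  · intro i a b; simp [add_mul]

lemma ev_sum {ι : Type*} (p : ℕ) (S : Finset ι) (s : ι → E[X]) (f : M) :
    ev p (∑ i ∈ S, s i) f = ∑ i ∈ S, ev p (s i) f := by
  classical
  induction S using Finset.induction_on with
  | empty => simp [ev_zero]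
  | insert a S ha ih => rw [Finset.sum_insert ha, Finset.sum_insert ha, ev_add, ih]

lemma ev_monomial (p k : ℕ) (a : E) (f : M) :
    ev p (monomial k a) f = algebraMap E M a * f ^ p ^ k := by
  unfold ev
  rw [Polynomial.sum_monomial_index]
  simp

lemma ev_map_add (p : ℕ) [Fact p.Prime] [CharP M p] (s : E[X]) (f g : M) :
    ev p s (f + g) = ev p s f + ev p s g := by
  unfold ev Polynomial.sum
  rw [← Finset.sum_add_distrib]
  refine Finset.sum_congr rfl fun k _ => ?_
  show algebraMap E M (s.coeff k) * (f + g) ^ p ^ k = algebraMap E M (s.coeff k) * f ^ p ^ k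
    + algebraMap E M (s.coeff k) * g ^ p ^ k
  rw [add_pow_char_pow, mul_add]

lemma ev_map_zero (p : ℕ) [Fact p.Prime] (s : E[X]) : ev p s (0 : M) = 0 := by
  unfold ev Polynomial.sum
  refine Finset.sum_eq_zero fun k _ => ?_
  have : p ^ k ≠ 0 := pow_ne_zero _ (Fact.out : p.Prime).ne_zero
  show algebraMap E M (s.coeff k) * (0 : M) ^ p ^ k = 0
  rw [zero_pow this, mul_zero]

lemma ev_cmp (p : ℕ) (S : E[X]) (e : ℕ) (b : E) (f : M) :
    ev p (cmp p S e b) f = ev p S (algebraMap E M b * f ^ p ^ e) := by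
  have h1 : cmp p S e b = ∑ k ∈ S.support, monomial (k + e) (S.coeff k * b ^ p ^ k) := rfl
  rw [h1, ev_sum]
  have h2 : ev p S (algebraMap E M b * f ^ p ^ e) =
      ∑ k ∈ S.support, algebraMap E M (S.coeff k) * (algebraMap E M b * f ^ p ^ e) ^ p ^ k := rfl
  rw [h2]
  refine Finset.sum_congr rfl fun k _ => ?_
  rw [ev_monomial, map_mul, map_pow, mul_pow, ← pow_mul, mul_assoc, add_comm k e, pow_add]

lemma coeff_cmp (p : ℕ) (S : E[X]) (e : ℕ) (b : E) (k : ℕ) :
    (cmp p S e b).coeff (k + e) = S.coeff k * b ^ p ^ k := by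
  have h1 : cmp p S e b = ∑ k ∈ S.support, monomial (k + e) (S.coeff k * b ^ p ^ k) := rfl
  rw [h1, Polynomial.finsetSum_coeff]
  by_cases hk : k ∈ S.support
  · rw [Finset.sum_eq_single k]
    · rw [coeff_monomial, if_pos rfl]
    · intro l _ hl
      rw [coeff_monomial, if_neg (by omega)]
    · intro h; exact absurd hk h
  · rw [Finset.sum_eq_zero, Polynomial.notMem_support_iff.1 hk, zero_mul]
    intro l hl
    rw [coeff_monomial, if_neg]
    intro h
    exact hk ((by omega : l = k) ▸ hl)

lemma coeff_cmp_zero (p : ℕ) [Fact p.Prime] (S : E[X]) (e : ℕ) (b : E) (d i : ℕ) (hS : ∀ k, d < k → S.coeff k = 0)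
    (hi : d + e < i) : (cmp p S e b).coeff i = 0 := by
  obtain ⟨k, rfl⟩ : ∃ k, i = k + e := ⟨i - e, by omega⟩
  rw [coeff_cmp, hS k (by omega), zero_mul]

/-- The elementary substitution `w_j = w'_j + b_j w'_{j₀}^(p^(e_j))`, `w_{j₀} = w'_{j₀}`. -/
lemma transform (p : ℕ) [Fact p.Prime] [CharP M p] {n : ℕ} (A : Fin n → E[X]) (j₀ : Fin n)
    (e : Fin n → ℕ) (b : Fin n → E) (w : Fin n → M) :
    ∑ j, ev p (A j) (w j + algebraMap E M (b j) * w j₀ ^ p ^ e j) =
      ∑ j, ev p (Function.update A j₀ (A j₀ + ∑ j, cmp p (A j) (e j) (b j)) j) (w j) := by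
  classical
  have h1 : ∀ j, ev p (A j) (w j + algebraMap E M (b j) * w j₀ ^ p ^ e j) =
      ev p (A j) (w j) + ev p (cmp p (A j) (e j) (b j)) (w j₀) := by
    intro j
    rw [ev_map_add, ev_cmp]
  have h2 : ∑ j, ev p (Function.update A j₀ (A j₀ + ∑ j, cmp p (A j) (e j) (b j)) j) (w j) =
      ∑ j, (ev p (A j) (w j) + if j = j₀ then ev p (∑ j, cmp p (A j) (e j) (b j)) (w j₀) else 0) := by
    refine Finset.sum_congr rfl fun j _ => ?_
    by_cases hj : j = j₀
    · rw [hj, Function.update_self, ev_add, if_pos rfl]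
    · rw [Function.update_of_ne hj, if_neg hj, add_zero]
  rw [h2, Finset.sum_congr rfl fun j _ => h1 j, Finset.sum_add_distrib, Finset.sum_add_distrib,
    Finset.sum_ite_eq', if_pos (Finset.mem_univ _), ev_sum]

section val

variable (O : ValuationSubring M) (hE : ∀ a : E, algebraMap E M a ∈ O)

include hE in
lemma val_le {a : E} : O.valuation (algebraMap E M a) ≤ 1 := (O.valuation_le_one_iff _).2 (hE a)

include hE in
lemma ev_mem {p : ℕ} (s : E[X]) {f : M} (hf : f ∈ O) : ev p s f ∈ O := by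
  unfold ev Polynomial.sum
  exact O.toSubring.sum_mem fun k _ => O.mul_mem _ _ (hE _) (O.toSubring.pow_mem hf _)

include hE in
/-- the value of `s` at `f ∉ O` is dominated by the top coefficient -/
lemma val_lower {p : ℕ} [Fact p.Prime] {s : E[X]} {d : ℕ} (hs : ∀ k, d < k → s.coeff k = 0) {f : M}
    (hf : f ∉ O) : O.valuation (ev p s f - algebraMap E M (s.coeff d) * f ^ p ^ d) <
      O.valuation f ^ p ^ d := by
  have hp : 1 < p := (Fact.out : p.Prime).one_lt
  have hf1 : 1 < O.valuation f := by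
    rw [← not_le, O.valuation_le_one_iff]; exact hf
  have h1 : ev p s f = ∑ k ∈ Finset.range (d + 1), algebraMap E M (s.coeff k) * f ^ p ^ k := by
    unfold ev
    refine Polynomial.sum_over_range' _ (fun k => by simp) _ ?_
    exact Nat.lt_succ_of_le (Polynomial.natDegree_le_iff_coeff_eq_zero.2 hs)
  rw [h1, Finset.sum_range_succ, add_sub_cancel_right]
  refine Valuation.map_sum_lt _ ?_ ?_
  · exact (pow_pos (lt_trans zero_lt_one hf1) _).ne'
  · intro k hk
    rw [map_mul, map_pow]
    calc O.valuation (algebraMap E M (s.coeff k)) * O.valuation f ^ p ^ k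
        ≤ 1 * O.valuation f ^ p ^ k := by
          gcongr
          exact val_le O hE
      _ = O.valuation f ^ p ^ k := one_mul _
      _ < O.valuation f ^ p ^ d :=
          pow_lt_pow_right₀ hf1 (Nat.pow_lt_pow_right hp (Finset.mem_range.1 hk))

include hE in
lemma val_upper {p : ℕ} [Fact p.Prime] {s : E[X]} {d : ℕ} (hs : ∀ k, d < k → s.coeff k = 0) {f : M}
    (hf : f ∉ O) : O.valuation (ev p s f) ≤ O.valuation f ^ p ^ d := by
  have h1 := val_lower O hE hs hf (p := p)
  have h2 : ev p s f = (ev p s f - algebraMap E M (s.coeff d) * f ^ p ^ d) +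
      algebraMap E M (s.coeff d) * f ^ p ^ d := by ring
  rw [h2]
  refine (O.valuation.map_add _ _).trans (max_le h1.le ?_)
  rw [map_mul, map_pow]
  calc O.valuation (algebraMap E M (s.coeff d)) * O.valuation f ^ p ^ d
      ≤ 1 * O.valuation f ^ p ^ d := by
        gcongr
        exact val_le O hE
    _ = _ := one_mul _

end val

end Pool.Agent.H895.AP
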