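import Pool.Agent.H895.AP.Sys2
import Pool.Agent.H895.AP.Base

/-!
# Values of additive polynomials at `t^(-m)`
-/

set_option autoImplicit false

namespace Pool.Agent.H895.AP

open Polynomial
open scoped RatFunc

variable {p : ℕ} [Fact p.Prime]

lemma coeff_lt {w : LaurentSeries (ZMod p)} {i : ℤ} (h : i < w.order) : w.coeff i = 0 :=
  HahnSeries.coeff_eq_zero_of_lt_order h

lemma one_var (S : (RatFunc (ZMod p))[X]) (hS : S ≠ 0) (w : LaurentSeries (ZMod p)) (M : ℤ) :
    ∀ᶠ m : ℕ in Filter.atTop, ∃ i : ℤ, i < M ∧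
      (w + ev p S (HahnSeries.single (-(m : ℤ)) (1 : ZMod p) : LaurentSeries (ZMod p))).coeff i ≠ 0 := by
  have hp : 1 < p := (Fact.out : p.Prime).one_lt
  set a : ℕ → LaurentSeries (ZMod p) := fun k => algebraMap (RatFunc (ZMod p)) (LaurentSeries (ZMod p))
    (S.coeff k) with ha
  set d := S.natDegree with hd
  have had : a d ≠ 0 := by
    rw [ha]
    exact (_root_.map_ne_zero _).2 (leadingCoeff_ne_zero.2 hS)
  have hc : (a d).coeff (a d).order ≠ 0 := HahnSeries.coeff_order_eq_zero.not.2 had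
  have e1 : ∀ᶠ m : ℕ in Filter.atTop, (a d).order - M < (m : ℤ) := by
    filter_upwards [Filter.eventually_gt_atTop ((a d).order - M).toNat] with m hm
    omega
  have e2 : ∀ᶠ m : ℕ in Filter.atTop, (a d).order - w.order < (m : ℤ) := by
    filter_upwards [Filter.eventually_gt_atTop ((a d).order - w.order).toNat] with m hm
    omega
  have e3 : ∀ᶠ m : ℕ in Filter.atTop, ∀ k ∈ Finset.range d, (a d).order - (a k).order < (m : ℤ) := by
    rw [Filter.eventually_all_finset]
    intro k _
    filter_upwards [Filter.eventually_gt_atTop ((a d).order - (a k).order).toNat] with m hm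
    omega
  filter_upwards [e1, e2, e3] with m h1 h2 h3
  have hm0 : (0 : ℤ) ≤ m := Int.natCast_nonneg m
  refine ⟨(a d).order - m * (p : ℤ) ^ d, ?_, ?_⟩
  · have h4 : (m : ℤ) * 1 ≤ m * (p : ℤ) ^ d := by
      apply mul_le_mul_of_nonneg_left _ hm0
      have : 0 < (p : ℤ) ^ d := by positivity
      omega
    omega
  · have hpow : ∀ k : ℕ, (HahnSeries.single (-(m : ℤ)) (1 : ZMod p) : LaurentSeries (ZMod p)) ^ p ^ k =
        HahnSeries.single (-((m : ℤ) * (p : ℤ) ^ k)) (1 : ZMod p) := by
      intro k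
      have h0 : (p ^ k) • (-(m : ℤ)) = -((m : ℤ) * (p : ℤ) ^ k) := by
        rw [nsmul_eq_mul]
        push_cast
        ring
      rw [HahnSeries.single_pow, one_pow, h0]
    have hterm : ∀ (k : ℕ) (i : ℤ), (a k * (HahnSeries.single (-(m : ℤ)) (1 : ZMod p) :
        LaurentSeries (ZMod p)) ^ p ^ k).coeff i = (a k).coeff (i + m * (p : ℤ) ^ k) := by
      intro k i
      rw [hpow, mul_comm, HahnSeries.coeff_single_mul, one_mul, sub_neg_eq_add]
    have hev : ev p S (HahnSeries.single (-(m : ℤ)) (1 : ZMod p) : LaurentSeries (ZMod p)) =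
        ∑ k ∈ Finset.range (d + 1), a k * (HahnSeries.single (-(m : ℤ)) (1 : ZMod p) :
          LaurentSeries (ZMod p)) ^ p ^ k := by
      unfold ev
      exact Polynomial.sum_over_range' _ (fun k => by simp) _ (Nat.lt_succ_self _)
    rw [hev, Finset.sum_range_succ, HahnSeries.coeff_add, HahnSeries.coeff_add, hterm d,
      sub_add_cancel]
    have hpd : (1 : ℤ) ≤ (p : ℤ) ^ d := by
      have : 0 < (p : ℤ) ^ d := by positivity
      omega
    have h5 : w.coeff ((a d).order - m * (p : ℤ) ^ d) = 0 := by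
      apply coeff_lt
      have h4 : (m : ℤ) * 1 ≤ m * (p : ℤ) ^ d := mul_le_mul_of_nonneg_left hpd hm0
      omega
    have h6 : (∑ k ∈ Finset.range d, a k * (HahnSeries.single (-(m : ℤ)) (1 : ZMod p) :
        LaurentSeries (ZMod p)) ^ p ^ k).coeff ((a d).order - m * (p : ℤ) ^ d) = 0 := by
      rw [HahnSeries.coeff_sum]
      refine Finset.sum_eq_zero fun k hk => ?_
      rw [hterm k]
      apply coeff_lt
      have h7 := h3 k hk
      have h8 : (p : ℤ) ^ k + 1 ≤ (p : ℤ) ^ d := by
        have h9 : p ^ k < p ^ d := Nat.pow_lt_pow_right hp (Finset.mem_range.1 hk)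
        have h10 : ((p ^ k + 1 : ℕ) : ℤ) ≤ ((p ^ d : ℕ) : ℤ) := by exact_mod_cast h9
        push_cast at h10
        exact h10
      have h11 : (m : ℤ) * ((p : ℤ) ^ k + 1) ≤ m * (p : ℤ) ^ d := mul_le_mul_of_nonneg_left h8 hm0
      have h12 : (m : ℤ) * ((p : ℤ) ^ k + 1) = m * (p : ℤ) ^ k + m := by ring
      omega
    rw [h5, h6, zero_add, zero_add]
    exact hc

/-- prescribed poles -/
theorem large (n : ℕ) (W : Type) [Finite W] (M : ℤ) (D : W → Fin n → (RatFunc (ZMod p))[X])
    (a : W → LaurentSeries (ZMod p)) (hD : ∀ s, D s ≠ 0) :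
    ∃ f : Fin n → LaurentSeries (ZMod p), ∀ s, ∃ i : ℤ, i < M ∧
      (a s + ∑ j, ev p (D s j) (f j)).coeff i ≠ 0 := by
  classical
  have key : ∀ J : Finset (Fin n), ∃ f : Fin n → LaurentSeries (ZMod p), ∀ s,
      (∃ j ∈ J, D s j ≠ 0) → ∃ i : ℤ, i < M ∧ (a s + ∑ j ∈ J, ev p (D s j) (f j)).coeff i ≠ 0 := by
    intro J
    induction J using Finset.induction_on with
    | empty => exact ⟨fun _ => 0, fun s ⟨j, hj, _⟩ => absurd hj (Finset.notMem_empty j)⟩
    | insert j J hj ih =>
      obtain ⟨f, hf⟩ := ih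
      have h1 : ∀ᶠ m : ℕ in Filter.atTop, ∀ s, D s j ≠ 0 → ∃ i : ℤ, i < M ∧
          ((a s + ∑ l ∈ J, ev p (D s l) (f l)) + ev p (D s j) (HahnSeries.single (-(m : ℤ))
            (1 : ZMod p) : LaurentSeries (ZMod p))).coeff i ≠ 0 := by
        rw [Filter.eventually_all]
        intro s
        by_cases hs : D s j = 0
        · exact Filter.Eventually.of_forall fun m h => absurd hs h
        · filter_upwards [one_var (D s j) hs (a s + ∑ l ∈ J, ev p (D s l) (f l)) M] with m hm _
          exact hm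
      obtain ⟨m, hm⟩ := h1.exists
      refine ⟨Function.update f j (HahnSeries.single (-(m : ℤ)) (1 : ZMod p)), fun s hs => ?_⟩
      have h2 : ∑ l ∈ J, ev p (D s l) (Function.update f j (HahnSeries.single (-(m : ℤ))
          (1 : ZMod p)) l) = ∑ l ∈ J, ev p (D s l) (f l) := by
        refine Finset.sum_congr rfl fun l hl => ?_
        rw [Function.update_of_ne]
        rintro rfl
        exact hj hl
      rw [Finset.sum_insert hj, h2, Function.update_self, add_comm (ev p (D s j) _), ← add_assoc]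
      by_cases h0 : D s j = 0
      · rw [h0, ev_zero, add_zero]
        apply hf s
        obtain ⟨l, hl, hl0⟩ := hs
        rcases Finset.mem_insert.1 hl with rfl | hl
        · exact absurd h0 hl0
        · exact ⟨l, hl, hl0⟩
      · exact hm s h0
  obtain ⟨f, hf⟩ := key Finset.univ
  refine ⟨f, fun s => hf s ?_⟩
  obtain ⟨j, hj⟩ := Function.ne_iff.1 (hD s)
  exact ⟨j, Finset.mem_univ j, hj⟩

end Pool.Agent.H895.AP
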