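import Pool.Agent.H895.AP.Sys
import Pool.Agent.H895.AP.Base

/-!
# The expansion of the elements of a valuation ring with residue field `F_p` in powers of `t`
-/

set_option autoImplicit false

namespace Pool.Agent.H895.AP

open scoped RatFunc

variable {L : Type} [Field L] (p : ℕ) [Fact p.Prime] [CharP L p] (V : ValuationSubring L)

instance charV : CharP V p := RingHom.charP V.subtype V.subtype_injective p

/-- the constants -/
noncomputable def cc : ZMod p →+* V := ZMod.castHom (dvd_refl p) V

noncomputable def iota : ZMod p →+* IsLocalRing.ResidueField V := (IsLocalRing.residue V).comp (cc p V)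

lemma iota_bij (hres : ∀ x ∈ V, ∃ a : ℤ, V.valuation (x - a) < 1) : Function.Bijective (iota p V) := by
  refine ⟨(iota p V).injective, fun y => ?_⟩
  obtain ⟨x, rfl⟩ := IsLocalRing.residue_surjective y
  obtain ⟨a, ha⟩ := hres x x.2
  refine ⟨(a : ZMod p), ?_⟩
  have h1 : cc p V (a : ZMod p) = ((a : ℤ) : V) := map_intCast _ a
  show IsLocalRing.residue V (cc p V (a : ZMod p)) = _
  rw [h1, eq_comm, ← sub_eq_zero, ← map_sub, IsLocalRing.residue_eq_zero_iff,
    ValuationSubring.valuation_lt_one_iff]
  exact ha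

section digits

variable (hres : ∀ x ∈ V, ∃ a : ℤ, V.valuation (x - a) < 1)

/-- the residue map -/
noncomputable def rr : V →+* ZMod p :=
  (RingEquiv.ofBijective (iota p V) (iota_bij p V hres)).symm.toRingHom.comp (IsLocalRing.residue V)

lemma rr_cc (a : ZMod p) : rr p V hres (cc p V a) = a := by
  show (RingEquiv.ofBijective (iota p V) (iota_bij p V hres)).symm (iota p V a) = a
  exact (RingEquiv.ofBijective (iota p V) (iota_bij p V hres)).symm_apply_apply a

lemma rr_zero (x : V) : rr p V hres x = 0 ↔ V.valuation (x : L) < 1 := by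
  rw [← ValuationSubring.valuation_lt_one_iff, ← IsLocalRing.residue_eq_zero_iff]
  show (RingEquiv.ofBijective (iota p V) (iota_bij p V hres)).symm (IsLocalRing.residue V x) = 0 ↔ _
  exact map_eq_zero_iff _ (RingEquiv.injective _)

variable {t : L} (ht0 : t ≠ 0) (ht : V.valuation t < 1)
  (hmin : ∀ x, V.valuation x < 1 → V.valuation x ≤ V.valuation t)

include ht in
lemma t_mem : t ∈ V := (V.valuation_le_one_iff t).1 ht.le

include ht0 hmin in
lemma ss_mem (x : V) : ((x : L) - (cc p V (rr p V hres x) : V)) / t ∈ V := by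
  rw [← V.valuation_le_one_iff, map_div₀]
  have h1 : V.valuation ((x - cc p V (rr p V hres x) : V) : L) < 1 := by
    rw [← rr_zero p V hres, map_sub, rr_cc, sub_self]
  have h2 := hmin _ h1
  have h3 : 0 < V.valuation t := zero_lt_iff.2 ((Valuation.ne_zero_iff _).2 ht0)
  rw [div_le_one₀ h3]
  exact h2

/-- the shift -/
noncomputable def ss (x : V) : V := ⟨_, ss_mem p V hres ht0 hmin x⟩

include ht in
lemma ss_eq (x : V) : x = cc p V (rr p V hres x) + (⟨t, t_mem V ht⟩ : V) * ss p V hres ht0 hmin x := by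
  apply Subtype.ext
  show (x : L) = ((cc p V (rr p V hres x) : V) : L) + t * (((x : L) - (cc p V (rr p V hres x) : V)) / t)
  rw [mul_div_cancel₀ _ ht0]
  ring

lemma uniq (x y : V) (a : ZMod p) (h : x = cc p V a + (⟨t, t_mem V ht⟩ : V) * y) :
    rr p V hres x = a ∧ ss p V hres ht0 hmin x = y := by
  have h1 : rr p V hres x = a := by
    rw [h, map_add, map_mul, rr_cc]
    have h2 : rr p V hres (⟨t, t_mem V ht⟩ : V) = 0 := (rr_zero p V hres _).2 ht
    rw [h2, zero_mul, add_zero]
  refine ⟨h1, ?_⟩
  have h2 := ss_eq p V hres ht0 ht hmin x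
  rw [h1] at h2
  have h3 : (⟨t, t_mem V ht⟩ : V) * ss p V hres ht0 hmin x = (⟨t, t_mem V ht⟩ : V) * y := by
    have h4 := h2.symm.trans h
    exact add_left_cancel h4
  have h4 : (⟨t, t_mem V ht⟩ : V) ≠ 0 := fun h5 => ht0 (congrArg Subtype.val h5)
  exact mul_left_cancel₀ h4 h3

include ht in
lemma ss_add (x y : V) : ss p V hres ht0 hmin (x + y) = ss p V hres ht0 hmin x + ss p V hres ht0 hmin y := by
  refine (uniq p V hres ht0 ht hmin (x + y) _ (rr p V hres x + rr p V hres y) ?_).2
  conv_lhs => rw [ss_eq p V hres ht0 ht hmin x, ss_eq p V hres ht0 ht hmin y]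
  rw [map_add]
  ring

include ht in
lemma ss_mul (x y : V) : ss p V hres ht0 hmin (x * y) =
    cc p V (rr p V hres x) * ss p V hres ht0 hmin y + ss p V hres ht0 hmin x * y := by
  refine (uniq p V hres ht0 ht hmin (x * y) _ (rr p V hres x * rr p V hres y) ?_).2
  rw [map_mul]
  have hx := ss_eq p V hres ht0 ht hmin x
  have hy := ss_eq p V hres ht0 ht hmin y
  generalize ss p V hres ht0 hmin x = sx at *
  generalize ss p V hres ht0 hmin y = sy at *
  generalize cc p V (rr p V hres x) = cx at *
  generalize cc p V (rr p V hres y) = cy at *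
  rw [hx]
  conv_lhs => rw [hy]
  conv_rhs => rw [hy]
  ring

include ht in
lemma ss_cc (a : ZMod p) : ss p V hres ht0 hmin (cc p V a) = 0 :=
  (uniq p V hres ht0 ht hmin (cc p V a) 0 a (by rw [mul_zero, add_zero])).2

include ht in
lemma ss_cc_mul (a : ZMod p) (y : V) : ss p V hres ht0 hmin (cc p V a * y) = cc p V a * ss p V hres ht0 hmin y := by
  rw [ss_mul p V hres ht0 ht hmin, rr_cc, ss_cc p V hres ht0 ht hmin, zero_mul, add_zero]

/-- the expansion -/
noncomputable def psi (x : V) : PowerSeries (ZMod p) :=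
  PowerSeries.mk fun n => rr p V hres ((ss p V hres ht0 hmin)^[n] x)

lemma psi_coeff_zero (x : V) : PowerSeries.coeff 0 (psi p V hres ht0 hmin x) = rr p V hres x := by
  rw [psi, PowerSeries.coeff_mk]
  rfl

lemma psi_coeff_succ (n : ℕ) (x : V) : PowerSeries.coeff (n + 1) (psi p V hres ht0 hmin x) =
    PowerSeries.coeff n (psi p V hres ht0 hmin (ss p V hres ht0 hmin x)) := by
  rw [psi, psi, PowerSeries.coeff_mk, PowerSeries.coeff_mk, Function.iterate_succ_apply]

lemma psi_eq (x : V) : psi p V hres ht0 hmin x =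
    PowerSeries.C (rr p V hres x) + PowerSeries.X * psi p V hres ht0 hmin (ss p V hres ht0 hmin x) := by
  ext n
  cases n with
  | zero => rw [psi_coeff_zero]; simp
  | succ n =>
    rw [psi_coeff_succ, map_add, PowerSeries.coeff_succ_X_mul, PowerSeries.coeff_C,
      if_neg (Nat.succ_ne_zero n), zero_add]

include ht in
lemma psi_add (x y : V) : psi p V hres ht0 hmin (x + y) = psi p V hres ht0 hmin x + psi p V hres ht0 hmin y := by
  ext n
  rw [map_add]
  induction n generalizing x y with
  | zero => rw [psi_coeff_zero, psi_coeff_zero, psi_coeff_zero, map_add]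
  | succ n ih => rw [psi_coeff_succ, psi_coeff_succ, psi_coeff_succ, ss_add p V hres ht0 ht hmin, ih]

include ht in
lemma psi_cc_mul (a : ZMod p) (y : V) (n : ℕ) : PowerSeries.coeff n (psi p V hres ht0 hmin (cc p V a * y)) =
    a * PowerSeries.coeff n (psi p V hres ht0 hmin y) := by
  induction n generalizing y with
  | zero => rw [psi_coeff_zero, psi_coeff_zero, map_mul, rr_cc]
  | succ n ih => rw [psi_coeff_succ, psi_coeff_succ, ss_cc_mul p V hres ht0 ht hmin, ih]

include ht in
lemma psi_mul (x y : V) : psi p V hres ht0 hmin (x * y) = psi p V hres ht0 hmin x * psi p V hres ht0 hmin y := by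
  ext n
  induction n generalizing x y with
  | zero =>
    have h1 : ∀ f g : PowerSeries (ZMod p), PowerSeries.coeff 0 (f * g) =
        PowerSeries.coeff 0 f * PowerSeries.coeff 0 g := fun f g => by
      simp only [PowerSeries.coeff_zero_eq_constantCoeff_apply, map_mul]
    rw [h1, psi_coeff_zero, psi_coeff_zero, psi_coeff_zero, map_mul]
  | succ n ih =>
    rw [psi_coeff_succ, ss_mul p V hres ht0 ht hmin, psi_add p V hres ht0 ht hmin, map_add,
      psi_cc_mul p V hres ht0 ht hmin, ih, psi_eq p V hres ht0 hmin x, add_mul, map_add,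
      PowerSeries.coeff_C_mul, psi_coeff_succ, mul_assoc, PowerSeries.coeff_succ_X_mul]

include ht in
lemma psi_one : psi p V hres ht0 hmin 1 = 1 := by
  have h1 : (1 : V) = cc p V 1 := (map_one _).symm
  have h0 : psi p V hres ht0 hmin 0 = 0 := by
    have h2 := psi_add p V hres ht0 ht hmin 0 0
    rw [add_zero] at h2
    exact left_eq_add.1 h2
  rw [psi_eq, h1, rr_cc, ss_cc p V hres ht0 ht hmin, h0, mul_zero, add_zero, map_one]

/-- the expansion, as a homomorphism of rings -/
noncomputable def Psi : V →+* PowerSeries (ZMod p) where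
  toFun := psi p V hres ht0 hmin
  map_one' := psi_one p V hres ht0 ht hmin
  map_mul' := psi_mul p V hres ht0 ht hmin
  map_zero' := by
    have h2 := psi_add p V hres ht0 ht hmin 0 0
    rw [add_zero] at h2
    exact left_eq_add.1 h2
  map_add' := psi_add p V hres ht0 ht hmin

lemma Psi_t : Psi p V hres ht0 ht hmin ⟨t, t_mem V ht⟩ = PowerSeries.X := by
  have h1 := uniq p V hres ht0 ht hmin ⟨t, t_mem V ht⟩ 1 0 (by rw [map_zero, mul_one, zero_add])
  show psi p V hres ht0 hmin _ = _
  rw [psi_eq, h1.1, h1.2, psi_one p V hres ht0 ht hmin, map_zero, mul_one, zero_add]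

end digits

end Pool.Agent.H895.AP
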