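import Mathlib

/-!
# Semilinear relations: from a field `F` to a subfield `E` with the same `p`-basis `t`
-/

set_option autoImplicit false

namespace Pool.Agent.H895.AP

variable {E F : Type} [Field E] [Field F] [Algebra E F]

/-- `E = ⊕ t^i E^p` and `F = ⊕ t^i F^p` -/
structure PBasis (p : ℕ) (E F : Type) [Field E] [Field F] [Algebra E F] (t : E) : Prop where
  spanE : ∀ a : E, ∃ c : Fin p → E, a = ∑ i : Fin p, t ^ (i : ℕ) * c i ^ p
  spanF : ∀ y : F, ∃ c : Fin p → F, y = ∑ i : Fin p, algebraMap E F t ^ (i : ℕ) * c i ^ p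
  ind : ∀ c : Fin p → F, ∑ i : Fin p, algebraMap E F t ^ (i : ℕ) * c i ^ p = 0 → c = 0

/-- linear relations -/
lemma rel_zero {J K : Type} [Fintype J] (a : K → J → E) (y : J → F) (hy : y ≠ 0)
    (h : ∀ k, ∑ j, algebraMap E F (a k j) * y j = 0) :
    ∃ e : J → E, e ≠ 0 ∧ ∀ k, ∑ j, a k j * e j = 0 := by
  obtain ⟨j₀, hj₀⟩ := Function.ne_iff.1 hy
  obtain ⟨lam, hlam⟩ : ∃ lam : F →ₗ[E] E, lam (y j₀) ≠ 0 := by
    by_contra hcon
    push Not at hcon
    exact hj₀ ((Module.forall_dual_apply_eq_zero_iff E (y j₀)).1 hcon)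
  refine ⟨fun j => lam (y j), fun h0 => hlam (congrFun h0 j₀), fun k => ?_⟩
  have h1 := congrArg lam (h k)
  rw [map_zero, map_sum] at h1
  rw [← h1]
  refine Finset.sum_congr rfl fun j _ => ?_
  rw [← Algebra.smul_def, map_smul, smul_eq_mul]

/-- semilinear relations -/
theorem rel (p : ℕ) [Fact p.Prime] [CharP E p] [CharP F p] {t : E} (hb : PBasis p E F t) (D : ℕ) :
    ∀ (J K : Type) [Fintype J] (d : J → ℕ) (_ : ∀ j, d j ≤ D) (a : K → J → E) (y : J → F) (_ : y ≠ 0)
      (_ : ∀ k, ∑ j, algebraMap E F (a k j) * y j ^ p ^ d j = 0),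
      ∃ e : J → E, e ≠ 0 ∧ ∀ k, ∑ j, a k j * e j ^ p ^ d j = 0 := by
  classical
  have hp : p ≠ 0 := (Fact.out : p.Prime).ne_zero
  have hinj := (algebraMap E F).injective
  have indE : ∀ c : Fin p → E, ∑ i : Fin p, t ^ (i : ℕ) * c i ^ p = 0 → c = 0 := by
    intro c hc
    have h1 := hb.ind (fun i => algebraMap E F (c i)) (by
      have h2 := congrArg (algebraMap E F) hc
      rw [map_zero, map_sum] at h2
      rw [← h2]
      exact Finset.sum_congr rfl fun i _ => by rw [map_mul, map_pow, map_pow])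
    funext i
    have h2 := congrFun h1 i
    simp only [Pi.zero_apply] at h2
    exact hinj (by rw [h2]; simp)
  induction D with
  | zero =>
    intro J K _ d hd a y hy h
    have hd0 : ∀ j, d j = 0 := fun j => Nat.le_zero.1 (hd j)
    obtain ⟨e, he, h1⟩ := rel_zero a y hy (fun k => by
      rw [← h k]
      refine Finset.sum_congr rfl fun j _ => ?_
      rw [hd0, pow_zero, pow_one])
    refine ⟨e, he, fun k => ?_⟩
    rw [← h1 k]
    refine Finset.sum_congr rfl fun j _ => ?_
    rw [hd0, pow_zero, pow_one]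
  | succ D ih =>
    intro J K _ d hd a y hy h
    choose bE hbE using hb.spanE
    choose bF hbF using hb.spanF
    -- the new variables
    let J' : Type := {j : J // d j ≠ 0} ⊕ ({j : J // d j = 0} × Fin p)
    let d' : J' → ℕ := Sum.elim (fun j => d j.1 - 1) (fun _ => 0)
    let y' : J' → F := Sum.elim (fun j => y j.1) (fun q => bF (y q.1.1) q.2)
    let a' : K × Fin p → J' → E := fun kl => Sum.elim (fun j => bE (a kl.1 j.1) kl.2)
      (fun q => bE (a kl.1 q.1.1 * t ^ (q.2 : ℕ)) kl.2)
    have hsplit : ∀ {M : Type} [AddCommMonoid M] (g : J → M), ∑ j, g j =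
        ∑ j : {j : J // d j ≠ 0}, g j.1 + ∑ j : {j : J // d j = 0}, g j.1 := by
      intro M _ g
      rw [← Finset.sum_filter_add_sum_filter_not Finset.univ (fun j => d j ≠ 0) g]
      congr 1
      · exact (Finset.sum_subtype _ (fun j => by simp) g)
      · exact (Finset.sum_subtype _ (fun j => by simp) g)
    -- the relation in terms of the new variables, over any extension
    have key : ∀ {M : Type} [Field M] [CharP M p] (φ : E →+* M) (z : J → M) (z' : J' → M)
        (_ : ∀ j : {j : J // d j ≠ 0}, z' (Sum.inl j) = z j.1)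
        (_ : ∀ j : {j : J // d j = 0}, z j.1 = ∑ i : Fin p, φ t ^ (i : ℕ) * z' (Sum.inr (j, i)) ^ p) (k : K),
        ∑ j, φ (a k j) * z j ^ p ^ d j =
          ∑ l : Fin p, φ t ^ (l : ℕ) * (∑ j' : J', φ (a' (k, l) j') * z' j' ^ p ^ d' j') ^ p := by
      intro M _ _ φ z z' hz1 hz2 k
      have e1 : ∀ l : Fin p, (∑ j' : J', φ (a' (k, l) j') * z' j' ^ p ^ d' j') ^ p =
          ∑ j : {j : J // d j ≠ 0}, φ (bE (a k j.1) l) ^ p * z j.1 ^ p ^ d j.1 +
          ∑ j : {j : J // d j = 0}, ∑ i : Fin p, φ (bE (a k j.1 * t ^ (i : ℕ)) l) ^ p *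
            z' (Sum.inr (j, i)) ^ p := by
        intro l
        rw [sum_pow_char, Fintype.sum_sum_type, Fintype.sum_prod_type]
        congr 1
        · refine Finset.sum_congr rfl fun j _ => ?_
          show (φ (bE (a k j.1) l) * z' (Sum.inl j) ^ p ^ (d j.1 - 1)) ^ p = _
          rw [mul_pow, hz1, ← pow_mul, ← pow_succ]
          congr 3
          have := j.2
          omega
        · refine Finset.sum_congr rfl fun j _ => Finset.sum_congr rfl fun i _ => ?_
          show (φ (bE (a k j.1 * t ^ (i : ℕ)) l) * z' (Sum.inr (j, i)) ^ p ^ 0) ^ p = _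
          rw [mul_pow, pow_zero, pow_one]
      have e2 : ∀ x : E, φ x = ∑ l : Fin p, φ t ^ (l : ℕ) * φ (bE x l) ^ p := by
        intro x
        conv_lhs => rw [hbE x]
        rw [map_sum]
        exact Finset.sum_congr rfl fun l _ => by rw [map_mul, map_pow, map_pow]
      have e5 : ∑ l : Fin p, φ t ^ (l : ℕ) * (∑ j' : J', φ (a' (k, l) j') * z' j' ^ p ^ d' j') ^ p =
          ∑ l : Fin p, ∑ j : {j : J // d j ≠ 0}, φ t ^ (l : ℕ) * (φ (bE (a k j.1) l) ^ p * z j.1 ^ p ^ d j.1) +
          ∑ l : Fin p, ∑ j : {j : J // d j = 0}, ∑ i : Fin p, φ t ^ (l : ℕ) *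
            (φ (bE (a k j.1 * t ^ (i : ℕ)) l) ^ p * z' (Sum.inr (j, i)) ^ p) := by
        rw [← Finset.sum_add_distrib]
        refine Finset.sum_congr rfl fun l _ => ?_
        rw [e1 l, mul_add, Finset.mul_sum, Finset.mul_sum]
        congr 1
        exact Finset.sum_congr rfl fun j _ => Finset.mul_sum _ _ _
      rw [e5, hsplit (fun j => φ (a k j) * z j ^ p ^ d j)]
      congr 1
      · rw [Finset.sum_comm]
        refine Finset.sum_congr rfl fun j _ => ?_
        conv_lhs => rw [e2 (a k j.1), Finset.sum_mul]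
        exact Finset.sum_congr rfl fun l _ => by ring
      · rw [Finset.sum_comm]
        refine Finset.sum_congr rfl fun j _ => ?_
        rw [Finset.sum_comm, j.2, pow_zero, pow_one, hz2 j, Finset.mul_sum]
        refine Finset.sum_congr rfl fun i _ => ?_
        have e4 := e2 (a k j.1 * t ^ (i : ℕ))
        rw [map_mul, map_pow] at e4
        rw [← mul_assoc, e4, Finset.sum_mul]
        exact Finset.sum_congr rfl fun l _ => by ring
    have hy' : y' ≠ 0 := by
      obtain ⟨j₀, hj₀⟩ := Function.ne_iff.1 hy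
      intro h0
      by_cases hd0 : d j₀ = 0
      · apply hj₀
        rw [hbF (y j₀)]
        refine Finset.sum_eq_zero fun i _ => ?_
        have h1 := congrFun h0 (Sum.inr (⟨j₀, hd0⟩, i))
        have h2 : bF (y j₀) i = 0 := h1
        rw [h2, zero_pow hp, mul_zero]
      · exact hj₀ (congrFun h0 (Sum.inl ⟨j₀, hd0⟩))
    obtain ⟨e', he', h1⟩ := ih J' (K × Fin p) d' (by
        rintro (j | q)
        · show d j.1 - 1 ≤ D
          have := hd j.1
          omega
        · exact Nat.zero_le _) a' y' hy' (fun kl => by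
        have h2 := key (algebraMap E F) y y' (fun j => rfl) (fun j => hbF (y j.1)) kl.1
        rw [h kl.1] at h2
        exact congrFun (hb.ind _ h2.symm) kl.2)
    refine ⟨fun j => if hj : d j = 0 then ∑ i : Fin p, t ^ (i : ℕ) * e' (Sum.inr (⟨j, hj⟩, i)) ^ p
      else e' (Sum.inl ⟨j, hj⟩), ?_, fun k => ?_⟩
    · intro h0
      apply he'
      funext j'
      rcases j' with j | ⟨j, i⟩
      · have h2 := congrFun h0 j.1
        simp only [dif_neg j.2] at h2
        exact h2
      · have h2 := congrFun h0 j.1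
        simp only [dif_pos j.2] at h2
        exact congrFun (indE _ h2) i
    · have h2 := key (RingHom.id E) (fun j => if hj : d j = 0 then
          ∑ i : Fin p, t ^ (i : ℕ) * e' (Sum.inr (⟨j, hj⟩, i)) ^ p else e' (Sum.inl ⟨j, hj⟩)) e'
        (fun j => by rw [dif_neg j.2]) (fun j => by rw [dif_pos j.2]; rfl) k
      simp only [RingHom.id_apply] at h2
      rw [h2]
      refine Finset.sum_eq_zero fun l _ => ?_
      rw [h1 (k, l), zero_pow hp, mul_zero]

end Pool.Agent.H895.AP
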