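import Pool.Agent.H895.AP.Sys

/-!
# Systems of additive polynomials: solutions with prescribed poles
-/

set_option autoImplicit false

namespace Pool.Agent.H895.AP

open Polynomial

variable {E F L : Type} [Field E] [Field F] [Field L] [Algebra E F] [Algebra E L]

section place

variable (O : ValuationSubring L) (hE : ∀ a : E, algebraMap E L a ∈ O) (ρ : O →+* F)
  (hρE : ∀ a : E, ρ ⟨algebraMap E L a, hE a⟩ = algebraMap E F a)

include hρE in
/-- **Purity**, with poles. -/
theorem purity2 (p : ℕ) [Fact p.Prime] [CharP E p] [CharP F p] [CharP L p] {t : E}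
    (hb : PBasis p E F t) (hρ : ∀ x : O, O.valuation (x : L) < 1 → ρ x = 0) {n : ℕ} {κ W : Type}
    (Large : W → F → Prop)
    (hL : ∀ (D : W → Fin n → E[X]) (a : W → F), (∀ s, D s ≠ 0) →
      ∃ f : Fin n → F, ∀ s, Large s (a s + ∑ j, ev p (D s j) (f j))) (N : ℕ) :
    ∀ (δ : Fin n → ℕ) (_ : ∑ j, δ j ≤ N) (A : κ → Fin n → E[X])
      (_ : ∀ k j i, δ j ≤ i → (A k j).coeff i = 0) (c : κ → O) (x : Fin n → L)
      (_ : ∀ k, ∑ j, ev p (A k j) (x j) = c k) (B : W → Fin n → E[X])
      (_ : ∀ s, ∑ j, ev p (B s j) (x j) ∉ O),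
      ∃ z : Fin n → F, (∀ k, ∑ j, ev p (A k j) (z j) = ρ (c k)) ∧
        ∀ s, Large s (∑ j, ev p (B s j) (z j)) := by
  classical
  have hp : 1 < p := (Fact.out : p.Prime).one_lt
  -- the case of integral `x j`
  have case1 : ∀ (δ : Fin n → ℕ) (A : κ → Fin n → E[X])
      (_ : ∀ k j i, δ j ≤ i → (A k j).coeff i = 0) (c : κ → O) (x : Fin n → L)
      (_ : ∀ k, ∑ j, ev p (A k j) (x j) = c k) (B : W → Fin n → E[X])
      (_ : ∀ s, ∑ j, ev p (B s j) (x j) ∉ O) (_ : ∀ j, δ j ≠ 0 → x j ∈ O),
      ∃ z : Fin n → F, (∀ k, ∑ j, ev p (A k j) (z j) = ρ (c k)) ∧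
        ∀ s, Large s (∑ j, ev p (B s j) (z j)) := by
    intro δ A hA c x hx B hB hint
    let xo : Fin n → O := fun j => if h : x j ∈ O then ⟨x j, h⟩ else 0
    have hxo : ∀ j, x j ∈ O → (xo j : L) = x j := by
      intro j hj
      have : xo j = ⟨x j, hj⟩ := dif_pos hj
      rw [this]
    let B' : W → Fin n → E[X] := fun s j => if x j ∈ O then 0 else B s j
    have hB' : ∀ s, B' s ≠ 0 := by
      intro s h0
      apply hB s
      refine O.toSubring.sum_mem fun j _ => ?_
      by_cases hj : x j ∈ O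
      · exact ev_mem O hE _ hj
      · have h1 : B' s j = B s j := if_neg hj
        rw [← h1, h0]
        show ev p (0 : E[X]) (x j) ∈ O
        rw [ev_zero]
        exact O.zero_mem
    obtain ⟨f, hf⟩ := hL B' (fun s => ∑ j, if x j ∈ O then ev p (B s j) (ρ (xo j)) else 0) hB'
    refine ⟨fun j => if x j ∈ O then ρ (xo j) else f j, fun k => ?_, fun s => ?_⟩
    · have h1 : c k = ∑ j, (⟨ev p (A k j) (xo j : L), ev_mem O hE _ (xo j).2⟩ : O) := by
        apply Subtype.ext
        rw [← hx k]
        push_cast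
        refine Finset.sum_congr rfl fun j _ => ?_
        by_cases hj : δ j = 0
        · have hA0 : A k j = 0 := by
            ext i
            rw [hA k j i (by omega), coeff_zero]
          rw [hA0, ev_zero, ev_zero]
        · rw [hxo j (hint j hj)]
      rw [h1, map_sum]
      refine Finset.sum_congr rfl fun j _ => ?_
      rw [ev_rho O hE ρ hρE p (A k j) (xo j)]
      show ev p (A k j) (if x j ∈ O then ρ (xo j) else f j) = _
      by_cases hj : x j ∈ O
      · rw [if_pos hj]
      · have hA0 : A k j = 0 := by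
          ext i
          have : δ j = 0 := by
            by_contra h
            exact hj (hint j h)
          rw [hA k j i (by omega), coeff_zero]
        rw [hA0, ev_zero, ev_zero]
    · show Large s (∑ j, ev p (B s j) (if x j ∈ O then ρ (xo j) else f j))
      have h1 := hf s
      have h2 : ∑ j, ev p (B s j) (if x j ∈ O then ρ (xo j) else f j) =
          (∑ j, if x j ∈ O then ev p (B s j) (ρ (xo j)) else 0) + ∑ j, ev p (B' s j) (f j) := by
        rw [← Finset.sum_add_distrib]
        refine Finset.sum_congr rfl fun j _ => ?_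
        by_cases hj : x j ∈ O
        · have h3 : B' s j = 0 := if_pos hj
          rw [if_pos hj, if_pos hj, h3, ev_zero, add_zero]
        · have h3 : B' s j = B s j := if_neg hj
          rw [if_neg hj, if_neg hj, h3, zero_add]
      rw [h2]
      exact h1
  induction N with
  | zero =>
    intro δ hδ A hA c x hx B hB
    refine case1 δ A hA c x hx B hB fun j hj => ?_
    have h1 := Finset.single_le_sum (f := δ) (fun _ _ => Nat.zero_le _) (Finset.mem_univ j)
    omega
  | succ N ih =>
  intro δ hδ A hA c x hx B hB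
  by_cases hcase : ∀ j, δ j ≠ 0 → x j ∈ O
  · exact case1 δ A hA c x hx B hB hcase
  push Not at hcase
  obtain ⟨j₂, hj₂⟩ := hcase
  set d : Fin n → ℕ := fun j => δ j - 1 with hd
  set γ : Fin n → O.ValueGroup := fun j => O.valuation (x j) ^ p ^ d j with hγ
  set Jp : Finset (Fin n) := Finset.univ.filter (fun j => δ j ≠ 0 ∧ x j ∉ O) with hJp
  have mJp : ∀ j, j ∈ Jp ↔ (δ j ≠ 0 ∧ x j ∉ O) := fun j => by rw [hJp, Finset.mem_filter]; simp
  obtain ⟨jm, hjm, hmax⟩ := Finset.exists_max_image Jp γ ⟨j₂, (mJp j₂).2 hj₂⟩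
  set J : Finset (Fin n) := Jp.filter (fun j => γ j = γ jm) with hJ
  have mJ : ∀ j, j ∈ J ↔ (j ∈ Jp ∧ γ j = γ jm) := fun j => by rw [hJ, Finset.mem_filter]
  obtain ⟨j₁, hj₁, hmax1⟩ := Finset.exists_max_image J d ⟨jm, (mJ jm).2 ⟨hjm, rfl⟩⟩
  set D := d j₁ with hD
  set u := x j₁ with hu
  have hout : ∀ j ∈ J, x j ∉ O := fun j hj => ((mJp j).1 ((mJ j).1 hj).1).2
  have hv1 : ∀ j, x j ∉ O → 1 < O.valuation (x j) := fun j hj => by
    rw [← not_le, O.valuation_le_one_iff]; exact hj
  have hu1 : 1 < O.valuation u := hv1 _ (hout _ hj₁)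
  have hu0 : u ≠ 0 := by
    intro h0
    rw [h0, map_zero] at hu1
    exact absurd hu1 (not_lt.2 zero_le)
  have hγm : γ jm = O.valuation u ^ p ^ D := (((mJ j₁).1 hj₁).2).symm
  have hγ1 : 1 < γ jm := by
    rw [hγm]
    exact one_lt_pow₀ hu1 (pow_ne_zero _ (by omega))
  have hcoef : ∀ k j, δ j ≠ 0 → ∀ i, d j < i → (A k j).coeff i = 0 := by
    intro k j hj i hi
    refine hA k j i ?_
    simp only [hd] at hi
    omega
  -- the quotients
  have hval : ∀ j ∈ J, O.valuation (x j) = O.valuation (u ^ p ^ (D - d j)) := by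
    intro j hj
    have h1 : O.valuation (x j) ^ p ^ d j = O.valuation u ^ p ^ D := by
      rw [← hγm]; exact ((mJ j).1 hj).2
    have h2 : (O.valuation (u ^ p ^ (D - d j))) ^ p ^ d j = O.valuation u ^ p ^ D := by
      rw [map_pow, ← pow_mul, ← pow_add]
      congr 2
      have := hmax1 j hj
      omega
    exact (pow_left_inj₀ zero_le zero_le (pow_ne_zero _ (by omega))).1 (h1.trans h2.symm)
  have hup : ∀ i : ℕ, u ^ p ^ i ≠ 0 := fun i => pow_ne_zero _ hu0
  have hvq : ∀ j ∈ J, O.valuation (x j / u ^ p ^ (D - d j)) = 1 := by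
    intro j hj
    rw [map_div₀, hval j hj, div_self ((Valuation.ne_zero_iff _).2 (hup _))]
  have hq : ∀ j : {j // j ∈ J}, x j.1 / u ^ p ^ (D - d j.1) ∈ O := fun j =>
    (O.valuation_le_one_iff _).1 (hvq j.1 j.2).le
  let q : {j // j ∈ J} → O := fun j => ⟨_, hq j⟩
  have hq0 : ∀ j, ρ (q j) ≠ 0 := by
    intro j h0
    have h1 : (x j.1 / u ^ p ^ (D - d j.1))⁻¹ ∈ O := by
      rw [← O.valuation_le_one_iff, map_inv₀, hvq j.1 j.2, inv_one]
    have h2 : q j * ⟨_, h1⟩ = 1 := by
      apply Subtype.ext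
      show (x j.1 / u ^ p ^ (D - d j.1)) * (x j.1 / u ^ p ^ (D - d j.1))⁻¹ = 1
      refine mul_inv_cancel₀ ?_
      intro h3
      have h4 := hvq j.1 j.2
      rw [h3, map_zero] at h4
      exact absurd h4 zero_ne_one
    have h3 := congrArg ρ h2
    rw [map_mul, h0, zero_mul, map_one] at h3
    exact absurd h3 zero_ne_one
  have hxq : ∀ j : {j // j ∈ J}, x j.1 ^ p ^ d j.1 = (q j : L) ^ p ^ d j.1 * u ^ p ^ D := by
    intro j
    have h1 : x j.1 = (q j : L) * u ^ p ^ (D - d j.1) := by
      show x j.1 = x j.1 / u ^ p ^ (D - d j.1) * u ^ p ^ (D - d j.1)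
      rw [div_mul_cancel₀ _ (hup _)]
    conv_lhs => rw [h1]
    rw [mul_pow, ← pow_mul, ← pow_add]
    congr 3
    have := hmax1 j.1 j.2
    omega
  -- the leading terms cancel
  have hlead : ∀ k, O.valuation (∑ j ∈ J, algebraMap E L ((A k j).coeff (d j)) * x j ^ p ^ d j) <
      γ jm := by
    intro k
    have h1 : ∑ j ∈ J, algebraMap E L ((A k j).coeff (d j)) * x j ^ p ^ d j =
        (c k : L) - ∑ j, (ev p (A k j) (x j) -
          if j ∈ J then algebraMap E L ((A k j).coeff (d j)) * x j ^ p ^ d j else 0) := by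
      rw [Finset.sum_sub_distrib, hx k, Finset.sum_ite_mem, Finset.univ_inter]
      ring
    rw [h1]
    refine lt_of_le_of_lt (Valuation.map_sub _ _ _) (max_lt ?_ ?_)
    · exact lt_of_le_of_lt ((O.valuation_le_one_iff _).2 (c k).2) hγ1
    · refine Valuation.map_sum_lt _ (ne_of_gt (lt_trans zero_lt_one hγ1)) fun j _ => ?_
      by_cases hj : j ∈ J
      · rw [if_pos hj]
        have hj' := (mJp j).1 ((mJ j).1 hj).1
        refine lt_of_lt_of_eq (val_lower O hE (hcoef k j hj'.1) hj'.2) ?_
        exact ((mJ j).1 hj).2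
      · rw [if_neg hj, sub_zero]
        by_cases hj' : j ∈ Jp
        · have h2 := (mJp j).1 hj'
          refine lt_of_le_of_lt (val_upper O hE (hcoef k j h2.1) h2.2) ?_
          refine lt_of_le_of_ne (hmax j hj') fun h3 => hj ((mJ j).2 ⟨hj', h3⟩)
        · rw [mJp, not_and_or, not_not, not_not] at hj'
          rcases hj' with h2 | h2
          · have hA0 : A k j = 0 := by
              ext i
              rw [hA k j i (by omega), coeff_zero]
            rw [hA0, ev_zero, map_zero]
            exact lt_trans zero_lt_one hγ1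
          · exact lt_of_le_of_lt ((O.valuation_le_one_iff _).2 (ev_mem O hE _ h2)) hγ1
  have hrelF : ∀ k, ∑ j : {j // j ∈ J}, algebraMap E F ((A k j.1).coeff (d j.1)) *
      ρ (q j) ^ p ^ d j.1 = 0 := by
    intro k
    have h1 := hρ (∑ j : {j // j ∈ J}, (⟨algebraMap E L ((A k j.1).coeff (d j.1)), hE _⟩ : O) *
      q j ^ p ^ d j.1) (by
        have h2 : ((∑ j : {j // j ∈ J}, (⟨algebraMap E L ((A k j.1).coeff (d j.1)), hE _⟩ : O) *
            q j ^ p ^ d j.1 : O) : L) * u ^ p ^ D =
            ∑ j ∈ J, algebraMap E L ((A k j).coeff (d j)) * x j ^ p ^ d j := by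
          push_cast
          rw [Finset.sum_mul, ← Finset.sum_coe_sort J]
          refine Finset.sum_congr rfl fun j _ => ?_
          rw [hxq j]
          ring
        have h3 := hlead k
        rw [← h2, map_mul, hγm, map_pow] at h3
        by_contra h4
        rw [not_lt] at h4
        refine absurd h3 (not_lt.2 ?_)
        calc O.valuation u ^ p ^ D = 1 * O.valuation u ^ p ^ D := (one_mul _).symm
          _ ≤ _ := mul_le_mul_left h4 _)
    rw [map_sum] at h1
    rw [← h1]
    exact Finset.sum_congr rfl fun j _ => by rw [map_mul, map_pow, hρE]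
  obtain ⟨e', he', hrel⟩ := rel p hb D {j // j ∈ J} (κ) (fun j => d j.1)
    (fun j => hmax1 j.1 j.2) (fun k j => (A k j.1).coeff (d j.1)) (fun j => ρ (q j))
    (fun h0 => hq0 ⟨j₁, hj₁⟩ (congrFun h0 _)) hrelF
  let ee : Fin n → E := fun j => if h : j ∈ J then e' ⟨j, h⟩ else 0
  have hee : ∀ j (h : j ∈ J), ee j = e' ⟨j, h⟩ := fun j h => dif_pos h
  have hee0 : ∀ j, j ∉ J → ee j = 0 := fun j h => dif_neg h
  have hrel2 : ∀ k, ∑ j, (A k j).coeff (d j) * ee j ^ p ^ d j = 0 := by
    intro k
    rw [← hrel k]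
    have h1 : ∑ j, (A k j).coeff (d j) * ee j ^ p ^ d j =
        ∑ j ∈ J, (A k j).coeff (d j) * ee j ^ p ^ d j := by
      refine (Finset.sum_subset (Finset.subset_univ J) fun j _ hj => ?_).symm
      rw [hee0 j hj, zero_pow (pow_ne_zero _ (by omega)), mul_zero]
    rw [h1, ← Finset.sum_coe_sort J]
    exact Finset.sum_congr rfl fun j _ => by rw [hee j.1 j.2]
  obtain ⟨j₀, hj₀, hmax0⟩ := Finset.exists_max_image (Finset.univ.filter fun j => ee j ≠ 0) d (by
    obtain ⟨j, hj⟩ := Function.ne_iff.1 he'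
    refine ⟨j.1, ?_⟩
    rw [Finset.mem_filter]
    refine ⟨Finset.mem_univ _, ?_⟩
    rw [hee j.1 j.2]
    exact hj)
  have hee1 : ee j₀ ≠ 0 := (Finset.mem_filter.1 hj₀).2
  have hmax2 : ∀ j, ee j ≠ 0 → d j ≤ d j₀ := fun j hj =>
    hmax0 j (Finset.mem_filter.2 ⟨Finset.mem_univ _, hj⟩)
  have hj₀J : j₀ ∈ J := by
    by_contra h
    exact hee1 (hee0 _ h)
  have hδ0 : δ j₀ ≠ 0 := ((mJp j₀).1 ((mJ j₀).1 hj₀J).1).1
  let ε : Fin n → ℕ := fun j => d j₀ - d j
  let b : Fin n → E := fun j => if j = j₀ then 0 else ee j / ee j₀ ^ p ^ ε j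
  have hb0 : b j₀ = 0 := if_pos rfl
  have hbe : ∀ j, j ≠ j₀ → b j = ee j / ee j₀ ^ p ^ ε j := fun j hj => if_neg hj
  have hbJ : ∀ j, b j ≠ 0 → ee j ≠ 0 := by
    intro j hj h0
    apply hj
    by_cases h : j = j₀
    · rw [h, hb0]
    · rw [hbe j h, h0, zero_div]
  let A' : κ → Fin n → E[X] := fun k =>
    Function.update (A k) j₀ (A k j₀ + ∑ j, cmp p (A k j) (ε j) (b j))
  let δ' : Fin n → ℕ := Function.update δ j₀ (δ j₀ - 1)
  have hA' : ∀ k j i, δ' j ≤ i → (A' k j).coeff i = 0 := by
    intro k j i hi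
    by_cases hj : j = j₀
    · subst hj
      have h1 : A' k j = A k j + ∑ l, cmp p (A k l) (ε l) (b l) := Function.update_self _ _ _
      have h2 : δ' j = δ j - 1 := Function.update_self _ _ _
      rw [h1, coeff_add, Polynomial.finsetSum_coeff]
      rw [h2] at hi
      rcases Nat.eq_or_lt_of_le hi with h3 | h3
      · -- the top coefficient
        have h4 : i = d j := h3.symm
        have h5 : ∀ l, (cmp p (A k l) (ε l) (b l)).coeff i * ee j ^ p ^ d j =
            if l = j then 0 else (A k l).coeff (d l) * ee l ^ p ^ d l := by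
          intro l
          by_cases hl : b l = 0
          · rw [hl, cmp_zero, coeff_zero, zero_mul]
            by_cases hlj : l = j
            · rw [if_pos hlj]
            · rw [if_neg hlj]
              have h6 : ee l = 0 := by
                have h7 := hbe l hlj
                rw [hl] at h7
                rcases div_eq_zero_iff.1 h7.symm with h8 | h8
                · exact h8
                · exact absurd h8 (pow_ne_zero _ hee1)
              rw [h6, zero_pow (pow_ne_zero _ (by omega)), mul_zero]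
          · have hlj : l ≠ j := fun h => hl (by rw [h]; exact hb0)
            rw [if_neg hlj]
            have h6 : d l ≤ d j := hmax2 l (hbJ l hl)
            have h7 : i = d l + ε l := by
              rw [h4]
              show d j = d l + (d j - d l)
              omega
            rw [h7, coeff_cmp, hbe l hlj, mul_assoc]
            congr 1
            have h8 : ee j ^ p ^ d j = (ee j ^ p ^ ε l) ^ p ^ d l := by
              rw [← pow_mul, ← pow_add]
              congr 2
              show d j = d j - d l + d l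
              omega
            rw [h8, ← mul_pow, div_mul_cancel₀ _ (pow_ne_zero _ hee1)]
        have h9 : ((A k j).coeff i + ∑ l, (cmp p (A k l) (ε l) (b l)).coeff i) * ee j ^ p ^ d j =
            0 := by
          refine Eq.trans ?_ (hrel2 k)
          rw [add_mul, Finset.sum_mul, Finset.sum_congr rfl fun l _ => h5 l,
            ← Finset.add_sum_erase Finset.univ (fun l => (A k l).coeff (d l) * ee l ^ p ^ d l)
              (Finset.mem_univ j), h4]
          congr 1
          rw [← Finset.add_sum_erase Finset.univ (fun l => if l = j then (0 : E) else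
            (A k l).coeff (d l) * ee l ^ p ^ d l) (Finset.mem_univ j), if_pos rfl, zero_add]
          refine Finset.sum_congr rfl fun l hl => ?_
          rw [if_neg (Finset.ne_of_mem_erase hl)]
        rcases mul_eq_zero.1 h9 with h10 | h10
        · exact h10
        · exact absurd h10 (pow_ne_zero _ hee1)
      · have h4 : d j < i := h3
        rw [hcoef k j hδ0 i h4, zero_add]
        refine Finset.sum_eq_zero fun l _ => ?_
        by_cases hl : b l = 0
        · rw [hl, cmp_zero, coeff_zero]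
        · have hel := hbJ l hl
          have hlJ : l ∈ J := by
            by_contra h
            exact hel (hee0 _ h)
          have hδl : δ l ≠ 0 := ((mJp l).1 ((mJ l).1 hlJ).1).1
          refine coeff_cmp_zero p (A k l) (ε l) (b l) (d l) i (hcoef k l hδl) ?_
          have h6 : d l ≤ d j := hmax2 l hel
          show d l + (d j - d l) < i
          omega
    · have h1 : A' k j = A k j := Function.update_of_ne hj _ _
      have h2 : δ' j = δ j := Function.update_of_ne hj _ _
      rw [h1]
      exact hA k j i (h2 ▸ hi)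
  have hδ' : ∑ j, δ' j ≤ N := by
    have h1 : ∑ j, δ' j + 1 = ∑ j, δ j := by
      rw [← Finset.add_sum_erase Finset.univ δ' (Finset.mem_univ j₀),
        ← Finset.add_sum_erase Finset.univ δ (Finset.mem_univ j₀)]
      have h2 : ∑ j ∈ Finset.univ.erase j₀, δ' j = ∑ j ∈ Finset.univ.erase j₀, δ j :=
        Finset.sum_congr rfl fun j hj => Function.update_of_ne (Finset.ne_of_mem_erase hj) _ _
      have h3 : δ' j₀ = δ j₀ - 1 := Function.update_self _ _ _
      rw [h2, h3]
      omega
    omega
  let x' : Fin n → L := fun j => x j - algebraMap E L (b j) * x j₀ ^ p ^ ε j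
  have hx'0 : x' j₀ = x j₀ := by
    show x j₀ - algebraMap E L (b j₀) * x j₀ ^ p ^ ε j₀ = x j₀
    rw [hb0, map_zero, zero_mul, sub_zero]
  let B' : W → Fin n → E[X] := fun s =>
    Function.update (B s) j₀ (B s j₀ + ∑ j, cmp p (B s j) (ε j) (b j))
  have hxx : ∀ j, x' j + algebraMap E L (b j) * x j₀ ^ p ^ ε j = x j := by
    intro j
    show x j - algebraMap E L (b j) * x j₀ ^ p ^ ε j + algebraMap E L (b j) * x j₀ ^ p ^ ε j = x j
    ring
  obtain ⟨z', hz', hz2⟩ := ih δ' hδ' A' hA' c x' (fun k => by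
    rw [← hx k]
    have h1 := transform p (A k) j₀ ε b x'
    rw [hx'0] at h1
    refine Eq.trans h1.symm (Finset.sum_congr rfl fun j _ => ?_)
    rw [hxx j]) B' (fun s => by
    have h1 := transform p (B s) j₀ ε b x'
    rw [hx'0] at h1
    have h2 : ∑ j, ev p (B' s j) (x' j) = ∑ j, ev p (B s j) (x j) := by
      refine Eq.trans h1.symm (Finset.sum_congr rfl fun j _ => ?_)
      rw [hxx j]
    rw [h2]
    exact hB s)
  refine ⟨fun j => z' j + algebraMap E F (b j) * z' j₀ ^ p ^ ε j, fun k => ?_, fun s => ?_⟩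
  · rw [transform p (A k) j₀ ε b z', ← hz' k]
  · rw [transform p (B s) j₀ ε b z']
    exact hz2 s

end place

end Pool.Agent.H895.AP
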